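import Pool.Agent.Q161.ESF.Stm7

/-!
# Project ESF: the three embeddings and the pairing over a field of characteristic zero
(adapted from `Pool/Agent/Q68/EA/Emb.lean`)
-/

set_option autoImplicit false
set_option linter.unusedSectionVars false

namespace Pool.Agent.Q124.ESF

open WeierstrassCurve Polynomial

open scoped Classical

open Pool.Agent.Q161.EA (sg)
open Pool.Agent.Q161.ESG (shF)
open Pool.Agent.Q161.ESF
open Pool.Agent.TH841.SH (IsX IsR isX_zero isX_some not_isX)

section emb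

variable {F : Type} [Field F] [CharZero F] {A B : F} {L : Type} [Field L] [Algebra F L] {ϑ : L}

theorem fin (hC : CubF A B L ϑ) : FiniteDimensional F L :=
  FiniteDimensional.of_finrank_pos (by rw [hC.deg]; norm_num)

theorem emb_inj (hC : CubF A B L ϑ) (Ω : Type) [Field Ω] [Algebra F Ω] {e e' : L →ₐ[F] Ω}
    (h : e ϑ = e' ϑ) : e = e' := by
  have := fin hC
  have hmon : (X ^ 3 + C A * X + C B : F[X]).Monic := by monicity!
  have hdeg : (X ^ 3 + C A * X + C B : F[X]).natDegree = 3 := by compute_degree!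
  have hmin : (X ^ 3 + C A * X + C B : F[X]) = minpoly F ϑ := by
    refine minpoly.eq_of_irreducible_of_monic hC.irr ?_ hmon
    have h1 := hC.root
    rw [map_add, map_add, map_mul, map_pow, aeval_X, aeval_C, aeval_C]
    exact h1
  have htop : IntermediateField.adjoin F {ϑ} = ⊤ := by
    rw [Field.primitive_element_iff_minpoly_natDegree_eq, ← hmin, hdeg, hC.deg]
  have halg : Algebra.adjoin F {ϑ} = ⊤ := by
    rw [← IntermediateField.adjoin_simple_toSubalgebra_of_isAlgebraic
      (Algebra.IsAlgebraic.isAlgebraic ϑ), htop, IntermediateField.top_toSubalgebra]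
  refine AlgHom.ext_of_adjoin_eq_top halg ?_
  intro x hx
  rw [Set.mem_singleton_iff] at hx
  rw [hx, h]

theorem emb_root (hC : CubF A B L ϑ) (Ω : Type) [Field Ω] [Algebra F Ω] (e : L →ₐ[F] Ω) :
    (e ϑ) ^ 3 + algebraMap F Ω A * e ϑ + algebraMap F Ω B = 0 := by
  have h := congrArg e hC.root
  rw [map_add, map_add, map_pow, map_mul, e.commutes, e.commutes, map_zero] at h
  exact h

theorem embs (hC : CubF A B L ϑ) (Ω : Type) [Field Ω] [Algebra F Ω] [IsAlgClosed Ω]
    (e : L →ₐ[F] Ω) : ∃ e' e'' : L →ₐ[F] Ω, e ≠ e' ∧ e ≠ e'' ∧ e' ≠ e'' ∧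
      ∀ x, x = e ∨ x = e' ∨ x = e'' := by
  have := fin hC
  have hcard : Fintype.card (L →ₐ[F] Ω) = 3 := by
    rw [AlgHom.card F L Ω, hC.deg]
  have h1 : (Finset.univ.erase e : Finset (L →ₐ[F] Ω)).card = 2 := by
    rw [Finset.card_erase_of_mem (Finset.mem_univ _), Finset.card_univ, hcard]
  obtain ⟨e', e'', hne, heq⟩ := Finset.card_eq_two.1 h1
  have h2 : e' ∈ Finset.univ.erase e := by
    rw [heq]
    simp
  have h3 : e'' ∈ Finset.univ.erase e := by
    rw [heq]
    simp
  refine ⟨e', e'', (Finset.ne_of_mem_erase h2).symm, (Finset.ne_of_mem_erase h3).symm, hne, ?_⟩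
  intro x
  by_cases hx : x = e
  · exact Or.inl hx
  · right
    have h4 : x ∈ Finset.univ.erase e := Finset.mem_erase.2 ⟨hx, Finset.mem_univ _⟩
    rw [heq] at h4
    simpa using h4

theorem isR_of {Ω : Type} [Field Ω] [Algebra F Ω] {a b c : Ω}
    (ha : a ^ 3 + algebraMap F Ω A * a + algebraMap F Ω B = 0)
    (hb : b ^ 3 + algebraMap F Ω A * b + algebraMap F Ω B = 0)
    (hc : c ^ 3 + algebraMap F Ω A * c + algebraMap F Ω B = 0)
    (hab : a ≠ b) (hac : a ≠ c) (hbc : b ≠ c) : IsR ((shF A B).baseChange Ω) a b c := by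
  have h1 : a ^ 2 + a * b + b ^ 2 + algebraMap F Ω A = 0 := by
    apply mul_left_cancel₀ (sub_ne_zero.2 hab)
    linear_combination ha - hb
  have h2 : a ^ 2 + a * c + c ^ 2 + algebraMap F Ω A = 0 := by
    apply mul_left_cancel₀ (sub_ne_zero.2 hac)
    linear_combination ha - hc
  have h3 : a + b + c = 0 := by
    apply mul_left_cancel₀ (sub_ne_zero.2 hbc)
    linear_combination h1 - h2
  refine ⟨?_, ?_, ?_, ?_, ?_⟩
  · show algebraMap F Ω 0 = 0
    exact map_zero _
  · show algebraMap F Ω 0 = _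
    rw [map_zero, h3, neg_zero]
  · show algebraMap F Ω 0 = 0
    exact map_zero _
  · show algebraMap F Ω A = _
    linear_combination h1 - (a + b) * h3
  · show algebraMap F Ω B = _
    linear_combination ha - a * h1 + a * b * h3

theorem emb_isR (hC : CubF A B L ϑ) (Ω : Type) [Field Ω] [Algebra F Ω] {e e' e'' : L →ₐ[F] Ω}
    (h1 : e ≠ e') (h2 : e ≠ e'') (h3 : e' ≠ e'') :
    IsR ((shF A B).baseChange Ω) (e ϑ) (e' ϑ) (e'' ϑ) :=
  isR_of (emb_root hC Ω e) (emb_root hC Ω e') (emb_root hC Ω e'')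
    (fun h => h1 (emb_inj hC Ω h)) (fun h => h2 (emb_inj hC Ω h)) (fun h => h3 (emb_inj hC Ω h))

theorem sg_or {K : Type} [Field K] (W : WeierstrassCurve K) (e : K) (T : W.toAffine.Point) :
    sg W e T = 1 ∨ sg W e T = -1 := by
  unfold sg
  split_ifs
  · exact Or.inl rfl
  · exact Or.inr rfl

theorem sg_mul_self {K : Type} [Field K] (W : WeierstrassCurve K) (e : K) (T : W.toAffine.Point) :
    sg W e T * sg W e T = 1 := by
  rcases sg_or W e T with h | h <;> rw [h] <;> ring

theorem sg_add {K : Type} [Field K] {W : WeierstrassCurve K} {a b c : K} (h : IsR W a b c)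
    (h2 : (2 : K) ≠ 0) (hab : a ≠ b) (hac : a ≠ c) (hbc : b ≠ c) {T T' : W.toAffine.Point}
    (hT : T + T = 0) (hT' : T' + T' = 0) : sg W a (T + T') = sg W a T * sg W a T' := by
  have h1 := h.isX_add h2 hab hac hbc hT hT'
  unfold sg
  by_cases h3 : IsX W a T <;> by_cases h4 : IsX W a T' <;> simp [h1, h3, h4]

theorem sg_iff {K : Type} [Field K] {W : WeierstrassCurve K} {a : K} (h2 : (2 : K) ≠ 0)
    {T T' : W.toAffine.Point} (h : sg W a T = sg W a T') : IsX W a T ↔ IsX W a T' := by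
  have hne : (1 : K) ≠ -1 := by
    intro h
    apply h2
    linear_combination h
  unfold sg at h
  by_cases h3 : IsX W a T <;> by_cases h4 : IsX W a T'
  · exact ⟨fun _ => h4, fun _ => h3⟩
  · rw [if_pos h3, if_neg h4] at h
    exact absurd h hne
  · rw [if_neg h3, if_pos h4] at h
    exact absurd h.symm hne
  · exact ⟨fun h => absurd h h3, fun h => absurd h h4⟩

/-- the pairing on the three embeddings determines the point -/
theorem sg_ext (hC : CubF A B L ϑ) (Ω : Type) [Field Ω] [Algebra F Ω] [IsAlgClosed Ω] [CharZero Ω]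
    {T T' : Pt (shF A B) Ω} (hT : T + T = 0) (hT' : T' + T' = 0)
    (h : ∀ e : L →ₐ[F] Ω, sg ((shF A B).baseChange Ω) (e ϑ) T =
      sg ((shF A B).baseChange Ω) (e ϑ) T') : T = T' := by
  have := fin hC
  obtain ⟨e⟩ : Nonempty (L →ₐ[F] Ω) := ⟨IsAlgClosed.lift⟩
  obtain ⟨e', e'', h1, h2, h3, -⟩ := embs hC Ω e
  exact (emb_isR hC Ω h1 h2 h3).ext two_ne_zero (fun h => h1 (emb_inj hC Ω h))
    (fun h => h2 (emb_inj hC Ω h)) (fun h => h3 (emb_inj hC Ω h)) hT hT'
    (sg_iff two_ne_zero (h e)) (sg_iff two_ne_zero (h e'))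

theorem sg_add' (hC : CubF A B L ϑ) (Ω : Type) [Field Ω] [Algebra F Ω] [IsAlgClosed Ω] [CharZero Ω]
    {T T' : Pt (shF A B) Ω} (hT : T + T = 0) (hT' : T' + T' = 0) (e : L →ₐ[F] Ω) :
    sg ((shF A B).baseChange Ω) (e ϑ) (T + T') = sg ((shF A B).baseChange Ω) (e ϑ) T *
      sg ((shF A B).baseChange Ω) (e ϑ) T' := by
  obtain ⟨e', e'', h1, h2, h3, -⟩ := embs hC Ω e
  exact sg_add (emb_isR hC Ω h1 h2 h3) two_ne_zero (fun h => h1 (emb_inj hC Ω h))
    (fun h => h2 (emb_inj hC Ω h)) (fun h => h3 (emb_inj hC Ω h)) hT hT'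

end emb

section act

variable {F : Type} [Field F]

theorem act_some (W : WeierstrassCurve F) {K M : Type} [Field K] [Field M] [Algebra F K]
    [Algebra F M] (φ : K →ₐ[F] M) {x y : K} (h : (W.baseChange K).toAffine.Nonsingular x y) :
    act W φ (.some x y h) =
      .some (φ x) (φ y) ((Affine.baseChange_nonsingular W φ.injective ..).mpr h) := rfl

theorem act_isX' (W : WeierstrassCurve F) {K M : Type} [Field K] [Field M] [Algebra F K]
    [Algebra F M] (φ : K →ₐ[F] M) (e : K) (T : Pt W K) :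
    IsX (W.baseChange M) (φ e) (act W φ T) ↔ IsX (W.baseChange K) e T := by
  rcases T with _ | ⟨x, y, h⟩
  · exact ⟨fun _ => Or.inl rfl, fun _ => Or.inl rfl⟩
  · by_cases hx : x = e
    · subst hx
      refine ⟨fun _ => isX_some h, fun _ => ?_⟩
      rw [act_some]
      exact isX_some _
    · refine ⟨fun h' => absurd h' ?_, fun h' => absurd h' (not_isX h hx)⟩
      rw [act_some]
      apply not_isX
      intro h2
      exact hx (φ.injective h2)

theorem sg_act (W : WeierstrassCurve F) {K M : Type} [Field K] [Field M] [Algebra F K]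
    [Algebra F M] (φ : K →ₐ[F] M) (e : K) (T : Pt W K) :
    sg (W.baseChange M) (φ e) (act W φ T) = φ (sg (W.baseChange K) e T) := by
  unfold sg
  by_cases h : IsX (W.baseChange K) e T
  · rw [if_pos h, if_pos ((act_isX' W φ e T).2 h), map_one]
  · rw [if_neg h, if_neg (fun h' => h ((act_isX' W φ e T).1 h')), map_neg, map_one]

end act

end Pool.Agent.Q124.ESF
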