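import Pool.Agent.Q124.ESF.Emb

/-!
# Project ESF, job KDF: every cocycle has Kummer data (adapted from `Pool/Agent/Q26/EA/Kd.lean`)
-/

set_option autoImplicit false

namespace Pool.Agent.Q124.ESF

open WeierstrassCurve Polynomial

open scoped Classical

open Pool.Agent.Q161.EA (sg)
open Pool.Agent.Q161.ESG (shF)
open Pool.Agent.Q161.ESF

theorem kdf (h90 : S_K90F) : S_KDF := by
  intro F _ _ A B L _ _ ϑ h f hf hf2
  have := fin h
  obtain ⟨hf1, hf3⟩ := hf
  obtain ⟨γ, δ, h3, h4, h5⟩ := h90 F L (fun σ e => sg ((shF A B).baseChange (AlgebraicClosure F)) (e ϑ) (f σ))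
    (fun e => hf1.comp (fun T => sg ((shF A B).baseChange (AlgebraicClosure F)) (e ϑ) T))
    (fun σ e => sg_or _ _ _)
    (by
      intro σ τ e
      show sg ((shF A B).baseChange (AlgebraicClosure F)) (e ϑ) (f (σ * τ)) =
        sg ((shF A B).baseChange (AlgebraicClosure F)) (e ϑ) (f σ) *
        sg ((shF A B).baseChange (AlgebraicClosure F)) (σ.symm (e ϑ)) (f τ)
      have h7 : act (shF A B) σ.toAlgHom (f τ) + act (shF A B) σ.toAlgHom (f τ) = 0 := by
        rw [← map_add, hf2, map_zero]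
      rw [hf3, sg_add' h (AlgebraicClosure F) (hf2 σ) h7 e]
      congr 1
      have h8 := sg_act (shF A B) σ.toAlgHom (σ.symm (e ϑ)) (f τ)
      have h9 : σ.toAlgHom (σ.symm (e ϑ)) = e ϑ := σ.apply_symm_apply _
      rw [h9] at h8
      rw [h8]
      rcases sg_or ((shF A B).baseChange (AlgebraicClosure F)) (σ.symm (e ϑ)) (f τ) with h10 | h10
      · rw [h10, map_one]
      · rw [h10, map_neg, map_one])
  exact ⟨γ, δ, ⟨h3, h4, h5⟩⟩

end Pool.Agent.Q124.ESF
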