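import Pool.Agent.Q124.ESF.Emb

/-!
# Project ESF, job KIF: injectivity (adapted from `Pool/Agent/Q68/EA/KI.lean`)
-/

set_option autoImplicit false
set_option linter.unusedSectionVars false

namespace Pool.Agent.Q124.ESF

open WeierstrassCurve Polynomial

open scoped Classical

open Pool.Agent.Q161.EA (sg)
open Pool.Agent.Q161.ESG (shF)
open Pool.Agent.Q161.ESF
open Pool.Agent.TH841.SH (IsX IsR isX_zero isX_some not_isX)

variable {F : Type} [Field F] [CharZero F] {A B : F} {L : Type} [Field L] [Algebra F L] {ϑ : L}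

/-- the point of order two with the given pairings -/
theorem exists_tor (hC : CubF A B L ϑ) (s : (L →ₐ[F] (AlgebraicClosure F)) → (AlgebraicClosure F)) (hs : ∀ e, s e = 1 ∨ s e = -1)
    {e1 e2 e3 : L →ₐ[F] (AlgebraicClosure F)} (h12 : e1 ≠ e2) (h13 : e1 ≠ e3) (h23 : e2 ≠ e3)
    (hall : ∀ x, x = e1 ∨ x = e2 ∨ x = e3) (hp : s e1 * s e2 * s e3 = 1) :
    ∃ T : Pt (shF A B) (AlgebraicClosure F), T + T = 0 ∧
      ∀ e, sg ((shF A B).baseChange (AlgebraicClosure F)) (e ϑ) T = s e := by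
  have hne : (1 : (AlgebraicClosure F)) ≠ -1 := by
    intro h
    have : (2 : (AlgebraicClosure F)) = 0 := by linear_combination h
    exact two_ne_zero this
  have n12 : e1 ϑ ≠ e2 ϑ := fun h => h12 (emb_inj hC (AlgebraicClosure F) h)
  have n13 : e1 ϑ ≠ e3 ϑ := fun h => h13 (emb_inj hC (AlgebraicClosure F) h)
  have n23 : e2 ϑ ≠ e3 ϑ := fun h => h23 (emb_inj hC (AlgebraicClosure F) h)
  have one : ∀ {e e' e'' : L →ₐ[F] (AlgebraicClosure F)}, e ≠ e' → e ≠ e'' → e' ≠ e'' →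
      (∀ x, x = e ∨ x = e' ∨ x = e'') → s e = 1 → s e' = -1 → s e'' = -1 →
      ∃ T : Pt (shF A B) (AlgebraicClosure F), T + T = 0 ∧
        ∀ e, sg ((shF A B).baseChange (AlgebraicClosure F)) (e ϑ) T = s e := by
    intro e e' e'' q1 q2 q3 hall w1 w2 w3
    have m1 : e ϑ ≠ e' ϑ := fun h => q1 (emb_inj hC (AlgebraicClosure F) h)
    have m2 : e ϑ ≠ e'' ϑ := fun h => q2 (emb_inj hC (AlgebraicClosure F) h)
    have m3 : e' ϑ ≠ e'' ϑ := fun h => q3 (emb_inj hC (AlgebraicClosure F) h)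
    have hR := emb_isR hC (AlgebraicClosure F) q1 q2 q3
    have hn : ((shF A B).baseChange (AlgebraicClosure F)).toAffine.Nonsingular (e ϑ) 0 :=
      hR.nons two_ne_zero m1 m2 m3 (by ring)
    refine ⟨.some (e ϑ) 0 hn, (hR.add_self two_ne_zero hn).2 rfl, fun x => ?_⟩
    unfold sg
    rcases hall x with rfl | rfl | rfl
    · rw [if_pos (isX_some hn), w1]
    · rw [if_neg (not_isX hn m1), w2]
    · rw [if_neg (not_isX hn m2), w3]
  rcases hs e1 with a1 | a1 <;> rcases hs e2 with a2 | a2 <;> rcases hs e3 with a3 | a3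
  · refine ⟨0, add_zero 0, fun e => ?_⟩
    unfold sg
    rw [if_pos (isX_zero _)]
    rcases hall e with rfl | rfl | rfl
    · exact a1.symm
    · exact a2.symm
    · exact a3.symm
  · rw [a1, a2, a3] at hp
    exact absurd hp.symm (by simpa using hne)
  · rw [a1, a2, a3] at hp
    exact absurd hp.symm (by simpa using hne)
  · exact one h12 h13 h23 hall a1 a2 a3
  · rw [a1, a2, a3] at hp
    exact absurd hp.symm (by simpa using hne)
  · refine one h12.symm h23 h13 (fun x => ?_) a2 a1 a3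
    rcases hall x with h | h | h
    · exact Or.inr (Or.inl h)
    · exact Or.inl h
    · exact Or.inr (Or.inr h)
  · refine one h13.symm h23.symm h12 (fun x => ?_) a3 a1 a2
    rcases hall x with h | h | h
    · exact Or.inr (Or.inl h)
    · exact Or.inr (Or.inr h)
    · exact Or.inl h
  · rw [a1, a2, a3] at hp
    exact absurd hp.symm (by simpa using hne)

theorem kif : S_KIF := by
  intro F _ _ A B L _ _ ϑ hC f f' γ γ' δ δ' hf hf' hK hK' hTr
  have := fin hC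
  obtain ⟨e1⟩ : Nonempty (L →ₐ[F] (AlgebraicClosure F)) := ⟨IsAlgClosed.lift⟩
  obtain ⟨e2, e3, h12, h13, h23, hall⟩ := embs hC (AlgebraicClosure F) e1
  have hδ : δ ≠ 0 := by
    rintro rfl
    have := hK.sq e1
    rw [map_zero] at this
    exact hK.ne e1 (pow_eq_zero_iff two_ne_zero |>.1 this)
  have hδ' : δ' ≠ 0 := by
    rintro rfl
    have := hK'.sq e1
    rw [map_zero] at this
    exact hK'.ne e1 (pow_eq_zero_iff two_ne_zero |>.1 this)
  -- `δ δ'` is a square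
  obtain ⟨η, hη⟩ : ∃ η : L, δ * δ' = η ^ 2 := by
    obtain ⟨η, hη⟩ := hTr
    exact ⟨η, by rw [hη, sq]⟩
  have hη0 : η ≠ 0 := by
    rintro rfl
    exact mul_ne_zero hδ hδ' (by rw [hη]; ring)
  -- choice of the sign of `η`
  have hsq : ∀ e : L →ₐ[F] (AlgebraicClosure F), (γ e * γ' e) ^ 2 = e η ^ 2 := by
    intro e
    rw [mul_pow, hK.sq, hK'.sq, ← map_mul, hη, map_pow]
  have hpm : ∀ η : L, η ≠ 0 → δ * δ' = η ^ 2 → ∀ e : L →ₐ[F] (AlgebraicClosure F),
      γ e * γ' e / e η = 1 ∨ γ e * γ' e / e η = -1 := by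
    intro η hη0 hη e
    have h1 : e η ≠ 0 := fun h => hη0 ((map_eq_zero e).1 h)
    have h2 : (γ e * γ' e) ^ 2 = e η ^ 2 := by
      rw [mul_pow, hK.sq, hK'.sq, ← map_mul, hη, map_pow]
    rcases sq_eq_sq_iff_eq_or_eq_neg.1 h2 with h3 | h3
    · left
      rw [h3, div_self h1]
    · right
      rw [h3, neg_div, div_self h1]
  obtain ⟨η, hη0, hη, hprod⟩ : ∃ η : L, η ≠ 0 ∧ δ * δ' = η ^ 2 ∧
      (γ e1 * γ' e1 / e1 η) * (γ e2 * γ' e2 / e2 η) * (γ e3 * γ' e3 / e3 η) = 1 := by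
    have h1 : (γ e1 * γ' e1 / e1 η) * (γ e2 * γ' e2 / e2 η) * (γ e3 * γ' e3 / e3 η) = 1 ∨
        (γ e1 * γ' e1 / e1 η) * (γ e2 * γ' e2 / e2 η) * (γ e3 * γ' e3 / e3 η) = -1 := by
      rcases hpm η hη0 hη e1 with h1 | h1 <;> rcases hpm η hη0 hη e2 with h2 | h2 <;>
        rcases hpm η hη0 hη e3 with h3 | h3 <;> rw [h1, h2, h3] <;> simp
    rcases h1 with h1 | h1
    · exact ⟨η, hη0, hη, h1⟩
    · refine ⟨-η, neg_ne_zero.2 hη0, by rw [hη]; ring, ?_⟩
      rw [map_neg, map_neg, map_neg, div_neg, div_neg, div_neg]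
      calc -(γ e1 * γ' e1 / e1 η) * -(γ e2 * γ' e2 / e2 η) * -(γ e3 * γ' e3 / e3 η) =
          -((γ e1 * γ' e1 / e1 η) * (γ e2 * γ' e2 / e2 η) * (γ e3 * γ' e3 / e3 η)) := by ring
        _ = 1 := by rw [h1]; ring
  obtain ⟨T, hT, hTs⟩ := exists_tor hC (fun e => γ e * γ' e / e η) (hpm η hη0 hη) h12 h13 h23
    hall hprod
  refine ⟨T, hT, fun σ => ?_⟩
  have hneg : f σ - f' σ = f σ + f' σ := by
    have := hf' σ
    rw [sub_eq_add_neg, neg_eq_of_add_eq_zero_left this]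
  have hnegT : act (shF A B) σ.toAlgHom T - T = act (shF A B) σ.toAlgHom T + T := by
    rw [sub_eq_add_neg, neg_eq_of_add_eq_zero_left hT]
  have hTσ : act (shF A B) σ.toAlgHom T + act (shF A B) σ.toAlgHom T = 0 := by
    rw [← map_add, hT, map_zero]
  have dbl : ∀ {P Q : Pt (shF A B) (AlgebraicClosure F)}, P + P = 0 → Q + Q = 0 → (P + Q) + (P + Q) = 0 := by
    intro P Q hP hQ
    have e : (P + Q) + (P + Q) = (P + P) + (Q + Q) := by abel
    rw [e, hP, hQ, add_zero]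
  rw [hneg, hnegT]
  apply sg_ext hC (AlgebraicClosure F) (dbl (hf σ) (hf' σ)) (dbl hTσ hT)
  intro e
  rw [sg_add' hC (AlgebraicClosure F) (hf σ) (hf' σ), sg_add' hC (AlgebraicClosure F) hTσ hT]
  obtain ⟨e', he'⟩ : ∃ e', e' = σ.symm.toAlgHom.comp e := ⟨_, rfl⟩
  have hσe : ∀ x : L, σ (e' x) = e x := by
    intro x
    rw [he']
    exact σ.apply_symm_apply _
  have h1 : sg ((shF A B).baseChange (AlgebraicClosure F)) (e ϑ) (act (shF A B) σ.toAlgHom T) =
      σ (sg ((shF A B).baseChange (AlgebraicClosure F)) (e' ϑ) T) := by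
    have := sg_act (shF A B) σ.toAlgHom (e' ϑ) T
    have h2 : σ.toAlgHom (e' ϑ) = e ϑ := hσe ϑ
    rw [h2] at this
    exact this
  rw [h1, hTs, hTs]
  show _ = σ (γ e' * γ' e' / e' η) * (γ e * γ' e / e η)
  have g1 := hK.gal σ e
  have g2 := hK'.gal σ e
  rw [← he'] at g1 g2
  rw [map_div₀, map_mul, g1, g2, hσe]
  have h5 : e η ≠ 0 := fun h => hη0 ((map_eq_zero e).1 h)
  have h6 : (γ e * γ' e) ^ 2 = e η ^ 2 := by
    rw [mul_pow, hK.sq, hK'.sq, ← map_mul, hη, map_pow]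
  have h7 : sg ((shF A B).baseChange (AlgebraicClosure F)) (e ϑ) (f σ) * γ e *
      (sg ((shF A B).baseChange (AlgebraicClosure F)) (e ϑ) (f' σ) * γ' e) / e η * (γ e * γ' e / e η) =
      sg ((shF A B).baseChange (AlgebraicClosure F)) (e ϑ) (f σ) * sg ((shF A B).baseChange (AlgebraicClosure F)) (e ϑ) (f' σ) *
        ((γ e * γ' e) ^ 2 / (e η) ^ 2) := by
    field_simp
  rw [h7, h6, div_self (pow_ne_zero 2 h5), mul_one]

end Pool.Agent.Q124.ESF
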